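import Mathlib
import Pool.Agent.Helper11.Iso.Defs

/-!
# Specialisation of a destabilising basis to the algebraic closure (piece ISO-C, MP_5f0950_ag)
-/

universe u

open Finset Matrix

namespace Pool.Agent.Helper11.Iso

open Pool.Agent.Helper10.GIT Pool.Agent.Helper11.GIT

variable {m : ℕ} {n : Fin m → ℕ}

lemma map_inv_of_isUnit {R R' : Type*} [CommRing R] [CommRing R'] (f : R →+* R') {k : ℕ}
    {M : Matrix (Fin k) (Fin k) R} (hM : IsUnit M.det) : (M⁻¹).map f = (M.map f)⁻¹ := by
  symm
  apply Matrix.inv_eq_left_inv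
  rw [← Matrix.map_mul, Matrix.nonsing_inv_mul _ hM, Matrix.map_one _ (map_zero f) (map_one f)]

lemma supp_map_subset {A κ κ' : Type*} [CommRing A] [Field κ] [Field κ'] (f : A →+* κ)
    (φ : A →+* κ') (H : Mats n A) (P : Set (Idx n → A)) :
    supp (fun t => (H t).map φ) ((fun z w => φ (z w)) '' P) ⊆
      supp (fun t => (H t).map f) ((fun z w => f (z w)) '' P) ∪ {_w | ¬ Function.Injective f} := by
  by_cases hf : Function.Injective f
  · rintro w ⟨_, ⟨z, hz, rfl⟩, hw⟩
    refine Or.inl ⟨_, ⟨z, hz, rfl⟩, ?_⟩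
    have h1 : act (fun t => (H t).map φ) (fun w => φ (z w)) w = φ (act H z w) :=
      congrFun (act_map φ H z) w
    have h2 : act (fun t => (H t).map f) (fun w => f (z w)) w = f (act H z w) :=
      congrFun (act_map f H z) w
    simp only at hw ⊢
    rw [h1] at hw
    rw [h2]
    intro h3
    apply hw
    rw [(injective_iff_map_eq_zero f).1 hf _ h3, map_zero]
  · intro w _
    exact Or.inr hf

/-- PIECE ISO-C -/
theorem exists_bad2_algebraicClosure {Ω : Type u} [Field Ω] {P Q : Set (Idx n → Ω)}
    {κ : Type u} [Field κ] [Algebra Ω κ] (h : Mats n κ)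
      (hh : ∀ t, IsUnit (h t).det) (hbad : Bad2 h (ext κ P) (ext κ Q)) :
    ∃ (h : Mats n (AlgebraicClosure Ω)), (∀ t, (h t).det ≠ 0) ∧
      Bad2 h (ext (AlgebraicClosure Ω) P) (ext (AlgebraicClosure Ω) Q) := by
  classical
  set S : Set κ := (⋃ t, Set.range fun p : Fin (n t) × Fin (n t) => h t p.1 p.2) ∪
    Set.range fun t => ((h t).det)⁻¹ with hS
  have hSfin : S.Finite := (Set.finite_iUnion fun t => Set.finite_range _).union (Set.finite_range _)
  set A : Subalgebra Ω κ := Algebra.adjoin Ω S with hA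
  have hft : Algebra.FiniteType Ω A := Algebra.FiniteType.adjoin_of_finite hSfin
  -- a specialisation
  obtain ⟨I, hI⟩ := Ideal.exists_maximal A
  let _ : Field (A ⧸ I) := Ideal.Quotient.field I
  have hft2 : Algebra.FiniteType Ω (A ⧸ I) :=
    Algebra.FiniteType.of_surjective (Ideal.Quotient.mkₐ Ω I) (Ideal.Quotient.mkₐ_surjective Ω I)
  have hfin : Module.Finite Ω (A ⧸ I) := finite_of_finite_type_of_isJacobsonRing Ω (A ⧸ I)
  let φ : A →ₐ[Ω] AlgebraicClosure Ω :=
    (IsAlgClosed.lift : (A ⧸ I) →ₐ[Ω] AlgebraicClosure Ω).comp (Ideal.Quotient.mkₐ Ω I)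
  have hmem : ∀ t i j, h t i j ∈ A := fun t i j =>
    Algebra.subset_adjoin (Or.inl (Set.mem_iUnion.2 ⟨t, ⟨(i, j), rfl⟩⟩))
  have hmemd : ∀ t, ((h t).det)⁻¹ ∈ A := fun t => Algebra.subset_adjoin (Or.inr ⟨t, rfl⟩)
  let H : Mats n A := fun t => Matrix.of fun i j => ⟨h t i j, hmem t i j⟩
  have hval : ∀ t, (H t).map (A.val : A →+* κ) = h t := by
    intro t
    ext i j
    rfl
  have hdet : ∀ t, IsUnit (H t).det := by
    intro t
    rw [isUnit_iff_exists_inv]
    refine ⟨⟨((h t).det)⁻¹, hmemd t⟩, ?_⟩
    apply Subtype.ext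
    have h1 : ((H t).det : κ) = (h t).det := by
      have := RingHom.map_det (A.val : A →+* κ) (H t)
      rw [← hval t]
      exact this
    change ((H t).det : κ) * ((h t).det)⁻¹ = 1
    rw [h1]
    exact mul_inv_cancel₀ (hh t).ne_zero
  refine ⟨fun t => (H t).map (φ : A →+* AlgebraicClosure Ω), ?_, ?_⟩
  · intro t
    have h1 : ((H t).map (φ : A →+* AlgebraicClosure Ω)).det = (φ : A →+* _) (H t).det :=
      (RingHom.map_det _ _).symm
    rw [h1]
    exact ((hdet t).map (φ : A →+* AlgebraicClosure Ω)).ne_zero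
  · have hinj : Function.Injective (A.val : A →+* κ) := Subtype.val_injective
    have hsub : ∀ (G : Mats n A) (R : Set (Idx n → Ω)),
        supp (fun t => (G t).map (φ : A →+* AlgebraicClosure Ω)) (ext (AlgebraicClosure Ω) R) ⊆
          supp (fun t => (G t).map (A.val : A →+* κ)) (ext κ R) := by
      intro G R w hw
      have h1 : ext (AlgebraicClosure Ω) R =
          (fun z w => (φ : A →+* AlgebraicClosure Ω) (z w)) ''
            ((fun z w => algebraMap Ω A (z w)) '' R) := by
        rw [Set.image_image]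
        unfold ext
        refine Set.image_congr fun z _ => ?_
        funext w
        exact (φ.commutes (z w)).symm
      have h2 : ext κ R = (fun z w => (A.val : A →+* κ) (z w)) ''
            ((fun z w => algebraMap Ω A (z w)) '' R) := by
        rw [Set.image_image]
        rfl
      rw [h1] at hw
      rw [h2]
      rcases supp_map_subset (A.val : A →+* κ) (φ : A →+* AlgebraicClosure Ω) G _ hw with h3 | h3
      · exact h3
      · exact absurd hinj h3
    have hcon : ∀ {κ' : Type u} [Field κ'] (g : A →+* κ'), contra (fun t => (H t).map g) =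
        fun t => (((H t)⁻¹)ᵀ).map g := by
      intro κ' _ g
      funext t
      unfold contra
      rw [← map_inv_of_isUnit g (hdet t)]
      rfl
    have hds : dsupp (fun t => (H t).map (φ : A →+* AlgebraicClosure Ω))
        (ext (AlgebraicClosure Ω) P) (ext (AlgebraicClosure Ω) Q) ⊆
        dsupp h (ext κ P) (ext κ Q) := by
      have hh' : h = fun t => (H t).map (A.val : A →+* κ) := by
        funext t
        exact (hval t).symm
      unfold dsupp
      rw [hh', hcon, hcon]
      exact Set.prod_mono (hsub _ P) (hsub _ Q)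
    unfold Bad2 at hbad ⊢
    exact fun h0 => hbad (convexHull_mono (Set.image_mono hds) h0)

end Pool.Agent.Helper11.Iso
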