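import Mathlib
import Pool.Agent.Helper11.Iso.Defs
import Pool.Agent.Helper33.Iso.Specialize
import Pool.Agent.Helper43.Iso.Valuation
import Pool.Agent.Helper65.Iso.Functional
import Pool.Agent.Helper96.Iso.Kempf2

/-!
# Galois descent of the canonical isotropic subspace (piece ISO-E, MP_5f0950_ag)
-/

universe u

open Finset Matrix

namespace Pool.Agent.Helper11.Iso

open Pool.Agent.Helper10.GIT Pool.Agent.Helper11.GIT

variable {m : ℕ} {n : Fin m → ℕ}

lemma contra_one {κ : Type*} [Field κ] : contra (1 : Mats n κ) = 1 := by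
  funext t
  unfold contra
  rw [Pi.one_apply, inv_one, transpose_one]

/-- a non-zero Galois stable subspace contains a non-zero rational vector -/
lemma exists_rational {Ω : Type u} [Field Ω] [CharZero Ω] {k : ℕ}
    (F : Submodule (AlgebraicClosure Ω) (Fin k → AlgebraicClosure Ω)) (hF : F ≠ ⊥)
    (hst : ∀ τ : AlgebraicClosure Ω ≃ₐ[Ω] AlgebraicClosure Ω, ∀ x ∈ F, (fun i => τ (x i)) ∈ F) :
    ∃ x : Fin k → Ω, x ≠ 0 ∧ (fun i => algebraMap Ω (AlgebraicClosure Ω) (x i)) ∈ F := by
  classical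
  have hex : ∃ N : ℕ, ∃ x ∈ F, x ≠ 0 ∧ #(univ.filter fun i => x i ≠ 0) = N := by
    obtain ⟨x, hx, hx0⟩ := F.ne_bot_iff.mp hF
    exact ⟨_, x, hx, hx0, rfl⟩
  obtain ⟨x, hx, hx0, hN⟩ := Nat.find_spec hex
  have hmin : ∀ y ∈ F, y ≠ 0 → #(univ.filter fun i => x i ≠ 0) ≤ #(univ.filter fun i => y i ≠ 0) := by
    intro y hy hy0
    rw [hN]
    exact Nat.find_min' hex ⟨y, hy, hy0, rfl⟩
  obtain ⟨j, hj⟩ := Function.ne_iff.mp hx0
  rw [Pi.zero_apply] at hj
  set y : Fin k → AlgebraicClosure Ω := (x j)⁻¹ • x with hy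
  have hyF : y ∈ F := F.smul_mem _ hx
  have hyj : y j = 1 := by
    rw [hy, Pi.smul_apply, smul_eq_mul, inv_mul_cancel₀ hj]
  have hysupp : (univ.filter fun i => y i ≠ 0) = univ.filter fun i => x i ≠ 0 := by
    ext i
    simp only [mem_filter, mem_univ, true_and, hy, Pi.smul_apply, smul_eq_mul]
    constructor
    · exact fun h h' => h (by rw [h', mul_zero])
    · exact fun h => mul_ne_zero (inv_ne_zero hj) h
  have hfix : ∀ (τ : AlgebraicClosure Ω ≃ₐ[Ω] AlgebraicClosure Ω) (i : Fin k), τ (y i) = y i := by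
    intro τ
    set z : Fin k → AlgebraicClosure Ω := (fun i => τ (y i)) - y with hz
    have hzF : z ∈ F := F.sub_mem (hst τ y hyF) hyF
    have hz0 : z = 0 := by
      by_contra hne
      have h1 := hmin z hzF hne
      have h2 : (univ.filter fun i => z i ≠ 0) ⊂ univ.filter fun i => x i ≠ 0 := by
        rw [← hysupp, Finset.ssubset_iff_of_subset]
        · refine ⟨j, ?_, ?_⟩
          · simp [hyj]
          · simp [hz, hyj]
        · intro i hi
          simp only [mem_filter, mem_univ, true_and] at hi ⊢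
          intro h0
          apply hi
          simp [hz, h0]
      exact absurd (card_lt_card h2) (not_lt.2 h1)
    intro i
    have := congrFun hz0 i
    rw [hz, Pi.sub_apply, Pi.zero_apply] at this
    exact sub_eq_zero.1 this
  have hrat : ∀ i, ∃ a : Ω, algebraMap Ω (AlgebraicClosure Ω) a = y i := by
    intro i
    exact (InfiniteGalois.mem_range_algebraMap_iff_fixed (y i)).2 fun τ => hfix τ i
  choose a ha using hrat
  refine ⟨a, ?_, ?_⟩
  · intro h0
    have h1 := ha j
    rw [h0, Pi.zero_apply, map_zero, hyj] at h1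
    exact zero_ne_one h1
  · have : (fun i => algebraMap Ω (AlgebraicClosure Ω) (a i)) = y := funext ha
    rw [this]
    exact hyF

/-- PIECE ISO-E -/
theorem exists_isotropic_of_traceZero {Ω : Type u} [Field Ω] [CharZero Ω]
    {P Q : Set (Idx n → Ω)} (hP : ∃ z ∈ P, z ≠ 0) (h : TraceZero P Q)
    (B : Mats n Ω) (hB : ∀ t, (B t).det ≠ 0) (hBs : ∀ t, (B t)ᵀ = B t ∨ (B t)ᵀ = -B t)
    (hQ : Q = act B '' P) :
    ∃ (t : Fin m) (F : Submodule Ω (Fin (n t) → Ω)), F ≠ ⊥ ∧
      (∀ x ∈ F, ∀ y ∈ F, x ⬝ᵥ (B t).mulVec y = 0) ∧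
      (∀ (ρ : Mats n Ω), (∀ t, (ρ t).det ≠ 0) → (∀ z ∈ P, act ρ z ∈ P) →
        (∀ y ∈ Q, act (contra ρ) y ∈ Q) → ∀ x ∈ F, (ρ t).mulVec x ∈ F) := by
  classical
  obtain ⟨κ, _, _, h₁, hh₁, hbad₁⟩ := exists_bad2_of (fun _ hk z y w w' hz hy =>
    fis_coord_dcoord h hk z y w w' hz hy)
  obtain ⟨h₂, hh₂, hbad₂⟩ := exists_bad2_algebraicClosure h₁ hh₁ hbad₁
  set K := AlgebraicClosure Ω
  set ι : Ω →+* K := algebraMap Ω K with hι
  have hinj : Function.Injective ι := ι.injective
  have hdet : ∀ (ρ : Mats n Ω) t, ((ρ t).map ι).det = ι (ρ t).det := fun ρ t =>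
    (RingHom.map_det ι (ρ t)).symm
  obtain ⟨t, F, hF0, hFiso, hFst⟩ := exists_isotropic (P := ext K P) (Q := ext K Q)
    (by
      obtain ⟨z, hz, hz0⟩ := hP
      refine ⟨_, ⟨z, hz, rfl⟩, fun h0 => hz0 ?_⟩
      funext w
      exact hinj (by rw [Pi.zero_apply, map_zero]; exact congrFun h0 w))
    hh₂ hbad₂ (fun t => (B t).map ι) (fun t => by
      rw [hdet]
      exact fun h0 => hB t (hinj (by rw [h0, map_zero])))
    (fun t => by
      rcases hBs t with h3 | h3
      · left
        rw [← Matrix.transpose_map, h3]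
      · right
        rw [← Matrix.transpose_map, h3]
        ext i j
        simp)
    (by
      rw [hQ]
      unfold ext
      rw [Set.image_image, Set.image_image]
      refine Set.image_congr fun z _ => ?_
      exact (act_map ι B z).symm)
  -- Galois stability
  have hgal : ∀ τ : K ≃ₐ[Ω] K, ∀ x ∈ F, (fun i => τ (x i)) ∈ F := by
    intro τ x hx
    have h3 := hFst 1 (τ : K ≃+* K) (fun t => by simp) (by
      rintro _ ⟨z, hz, rfl⟩
      rw [act_one]
      refine ⟨z, hz, ?_⟩
      funext w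
      exact (τ.commutes (z w)).symm) (by
      rintro _ ⟨z, hz, rfl⟩
      rw [contra_one, act_one]
      refine ⟨z, hz, ?_⟩
      funext w
      exact (τ.commutes (z w)).symm) x hx
    rw [Pi.one_apply, Matrix.one_mulVec] at h3
    exact h3
  obtain ⟨x₀, hx₀, hx₀F⟩ := exists_rational F hF0 hgal
  refine ⟨t, { carrier := {x | (fun i => ι (x i)) ∈ F}
               add_mem' := ?_
               zero_mem' := ?_
               smul_mem' := ?_ }, ?_, ?_, ?_⟩
  · intro x y hx hy
    have h3 := F.add_mem hx hy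
    have h4 : (fun i => ι ((x + y) i)) = (fun i => ι (x i)) + fun i => ι (y i) := by
      funext i
      simp
    change (fun i => ι ((x + y) i)) ∈ F
    rw [h4]
    exact h3
  · have h4 : (fun i => ι ((0 : Fin (n t) → Ω) i)) = 0 := by
      funext i
      simp
    change (fun i => ι ((0 : Fin (n t) → Ω) i)) ∈ F
    rw [h4]
    exact F.zero_mem
  · intro c x hx
    have h3 := F.smul_mem (ι c) hx
    have h4 : (fun i => ι ((c • x) i)) = ι c • fun i => ι (x i) := by
      funext i
      simp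
    change (fun i => ι ((c • x) i)) ∈ F
    rw [h4]
    exact h3
  · rw [Submodule.ne_bot_iff]
    exact ⟨x₀, hx₀F, hx₀⟩
  · intro x hx y hy
    have h3 := hFiso _ hx _ hy
    apply hinj
    rw [map_zero, ← h3]
    simp only [dotProduct, Matrix.mulVec, map_sum, map_mul, Matrix.map_apply]
  · intro ρ hρ hρP hρQ x hx
    have h3 := hFst (fun t => (ρ t).map ι) (RingEquiv.refl K) (fun t => by
      rw [hdet]
      exact fun h0 => hρ t (hinj (by rw [h0, map_zero]))) (by
      rintro _ ⟨z, hz, rfl⟩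
      refine ⟨act ρ z, hρP z hz, ?_⟩
      exact (act_map ι ρ z).symm) (by
      rintro _ ⟨z, hz, rfl⟩
      refine ⟨act (contra ρ) z, hρQ z hz, ?_⟩
      have h5 : contra (fun t => (ρ t).map ι) = fun t => (contra ρ t).map ι := by
        funext t
        unfold contra
        rw [← map_inv_of_isUnit ι (isUnit_iff_ne_zero.2 (hρ t))]
        rfl
      rw [h5]
      exact (act_map ι (contra ρ) z).symm) _ hx
    have h4 : (fun i => ι ((ρ t).mulVec x i)) = ((ρ t).map ι).mulVec fun i => ι (x i) := by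
      funext i
      simp only [dotProduct, Matrix.mulVec, map_sum, map_mul, Matrix.map_apply]
    change (fun i => ι ((ρ t).mulVec x i)) ∈ F
    rw [h4]
    exact h3

end Pool.Agent.Helper11.Iso
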